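import Pool.Agent.H64.TB3

set_option autoImplicit false

namespace Pool.Agent.Results.MP_340332_ag.TypeB

open Polynomial

/-- A derivation is locally nilpotent. -/
def IsLND {K B : Type} [Field K] [CommRing B] [Algebra K B] (D : Derivation K B B) : Prop :=
  ∀ b : B, ∃ n : ℕ, (⇑D)^[n] b = 0

/-- The modified Derksen invariant: the subalgebra generated by the kernels of all locally
nilpotent derivations that have a slice. -/
def HDstar (K B : Type) [Field K] [CommRing B] [Algebra K B] : Subalgebra K B :=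
  Algebra.adjoin K {b : B | ∃ D : Derivation K B B, IsLND D ∧ (∃ s, D s = 1) ∧ D b = 0}

/-- Type B: the invariant of the cylinder is a proper subalgebra that is not finitely generated. -/
def IsTypeB (K A : Type) [Field K] [CommRing A] [Algebra K A] : Prop :=
  HDstar K A[X] ≠ ⊤ ∧ ¬ (HDstar K A[X]).FG

lemma mem_of_aut {K A : Type} [Field K] [CommRing A] [Algebra K A] (E : A[X] ≃ₐ[K] A[X]) (a : A) :
    E (C a) ∈ HDstar K A[X] := by
  let D : Derivation K A[X] A[X] := Derivation.mk'
    (E.toLinearMap ∘ₗ (derivative.restrictScalars K) ∘ₗ E.symm.toLinearMap) (fun p q => by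
      simp [derivative_mul]; ring)
  have hD : ∀ b, D b = E (derivative (E.symm b)) := fun b => rfl
  refine Algebra.subset_adjoin ⟨D, fun b => ?_, ⟨E X, by simp [hD]⟩, by simp [hD]⟩
  have : ∀ n : ℕ, (⇑D)^[n] b = E (derivative^[n] (E.symm b)) := by
    intro n
    induction n with
    | zero => simp
    | succ n ih => rw [Function.iterate_succ_apply', ih, hD, Function.iterate_succ_apply']; simp
  exact ⟨_, by rw [this, iterate_derivative_eq_zero (Nat.lt_succ_self _), map_zero]⟩

open H64.TB in
/-- Over every field of characteristic zero there are finitely generated subalgebras `A`, `B` of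
`K[x, y]` with `A` of type B, `A[u]` isomorphic to `B[u]`, and `A` not isomorphic to `B`. -/
theorem result (K : Type) [Field K] [CharZero K] :
    ∃ A B : Subalgebra K (MvPolynomial (Fin 2) K), A.FG ∧ B.FG ∧ IsTypeB K A ∧
      Nonempty (A[X] ≃ₐ[K] B[X]) ∧ IsEmpty (A ≃ₐ[K] B) := by
  have hle : ∀ b ∈ HDstar K (A (1 : K))[X], rho b ∈ (⊥ : Subalgebra K K[X]) := by
    have : HDstar K (A (1 : K))[X] ≤ (⊥ : Subalgebra K K[X]).comap rho :=
      Algebra.adjoin_le fun b ⟨D, _, hs, hb⟩ => ker_const D hs hb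
    exact this
  refine ⟨A 1, A 2, A_fg 1, A_fg 2, ⟨fun e => ?_, not_fg _ hle fun i => ?_⟩,
    cyl.map AlgEquiv.symm, not_iso⟩
  · obtain ⟨c, hc⟩ := Algebra.mem_bot.1 (hle X (e ▸ Algebra.mem_top))
    have := congrArg (fun p => coeff p 1) hc
    simp [rho] at this
  · obtain ⟨E, hE⟩ := shear (K := K) i
    let a : A (1 : K) := ⟨_, cond 1 (MvPolynomial.X 1)⟩
    refine ⟨E (C a) - C a, sub_mem (mem_of_aut E a) (mem_of_aut AlgEquiv.refl a), ?_⟩
    have hc : (C h : (R K)[X]) = xx ^ 2 * (xx + 1) * (xx - 1) := by simp [h, xx]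
    have h2 : io 1 (C a) = C h * yy := by simp [a, yy]
    have h3 : ∀ P Q, Ph P Q (C h : (R K)[X]) = C h := fun P Q => by simp [hc]
    refine (map_sub (io (1 : K)) _ _).trans ?_
    rw [hE, h2, map_mul, h3, Ph_y]
    ring

end Pool.Agent.Results.MP_340332_ag.TypeB
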